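import Mathlib
import Pool.Agent.H89.QuatA

set_option autoImplicit false

namespace Pool.Agent.Results.MP_554556_an.Definite

open Matrix Quaternion Finset Pool.Agent.H89.Quat

abbrev M (n : ℕ) := Matrix (Fin n) (Fin n) ℍ[ℝ]

variable {n : ℕ}

def Sym (l : ℕ) (A : ℕ → M n) : Prop := ∀ k ≤ l, (A k)ᴴ = if Even k then A k else -A k

def Bdd (l : ℕ) (A : ℕ → M n) : Prop :=
  ∀ x : ℝ → Fin n → ℍ[ℝ], ContDiff ℝ l x →
    (∀ t, ∑ k ∈ range (l + 1), A k *ᵥ iteratedDeriv k x t = 0) → ∃ c, ∀ t, ‖x t‖ ≤ c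

def StablyBdd (l : ℕ) (A : ℕ → M n) : Prop :=
  ∃ ε > (0 : ℝ), ∀ A' : ℕ → M n, Sym l A' → (∀ k ≤ l, ∀ a b, ‖A' k a b - A k a b‖ < ε) → Bdd l A'

noncomputable def C (l : ℕ) (A : ℕ → M n) : Matrix (Fin l × Fin n) (Fin l × Fin n) ℍ[ℝ] :=
  Matrix.comp _ _ _ _ _ (Matrix.of fun i j : Fin l =>
    if i.val + 1 = l then -(Ring.inverse (A l) * A j) else if j.val = i.val + 1 then 1 else 0)

noncomputable def G (l : ℕ) (A : ℕ → M n) : Matrix (Fin l × Fin n) (Fin l × Fin n) ℍ[ℝ] :=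
  Matrix.comp _ _ _ _ _ (Matrix.of fun i j : Fin l =>
    if i.val + j.val + 1 ≤ l then (-1 : ℝ) ^ i.val • A (i.val + j.val + 1) else 0)

open Classical in
noncomputable def root {ι : Type} [Fintype ι] [DecidableEq ι] (X : Matrix ι ι ℍ[ℝ]) (q : ℍ[ℝ]) :
    Set (ι → ℍ[ℝ]) :=
  {v | (if q.im = 0 then X - q.re • 1 else X ^ 2 - (2 * q.re) • X + normSq q • 1) ^
    Fintype.card ι *ᵥ v = 0}

lemma unb (l : ℕ) (A : ℕ → M n) (x : Fin n → ℍ[ℝ]) (x0 : x ≠ 0) (q : ℍ[ℝ]) (hq : q.re ≠ 0)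
    (h : ∑ k ∈ range (l + 1), R (A k *ᵥ x) (q ^ k) = 0) : ¬ Bdd l A := fun hb => by
  have d : ∀ (p : ℍ[ℝ]) t, HasDerivAt (fun t : ℝ => R x (p * NormedSpace.exp (t • q)))
      (R x (p * q * NormedSpace.exp (t • q))) t := fun p t => hasDerivAt_pi.mpr fun a => by
    simpa [R, mul_assoc] using ((hasDerivAt_exp_smul_const' q t).const_mul p).const_mul (x a)
  have e : ∀ k, iteratedDeriv k (fun t : ℝ => R x (1 * NormedSpace.exp (t • q))) =
      fun t => R x (q ^ k * NormedSpace.exp (t • q)) := fun k => by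
    induction k with
    | zero => simp
    | succ k ih => rw [iteratedDeriv_succ, ih]; exact funext fun t => (d _ t).deriv.trans (by rw [pow_succ])
  obtain ⟨c, hc⟩ := hb (fun t : ℝ => R x (1 * NormedSpace.exp (t • q)))
    (contDiff_of_differentiable_iteratedDeriv (n := l) fun m _ => by
      rw [e]; exact fun t => (d _ t).differentiableAt) fun t => by
      rw [sum_congr rfl fun k _ => by rw [e]]
      ext1 a
      have := congrArg (· * NormedSpace.exp (t • q)) (congrFun h a)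
      simpa [mv_R, R, Finset.sum_apply, sum_mul, mul_assoc] using this
  obtain ⟨a, ha⟩ := Function.ne_iff.mp x0
  have h1 := norm_pos_iff.mpr ha
  have := (norm_le_pi_norm _ a).trans (hc ((c / ‖x a‖) / q.re))
  simp only [R, norm_mul, one_mul, Quaternion.norm_exp, re_smul, smul_eq_mul, div_mul_cancel₀ _ hq,
    ← Real.exp_eq_exp_ℝ, Real.norm_eq_abs, Real.abs_exp] at this
  have h2 := mul_le_mul_of_nonneg_left (Real.add_one_le_exp (c / ‖x a‖)) h1.le
  rw [mul_add, mul_div_cancel₀ _ h1.ne'] at h2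
  linarith

lemma sm (r : ℝ) (X : M n) : star (r • X) = r • star X := by ext1; simp

lemma sg {l : ℕ} {A : ℕ → M n} (h : Sym l A) (i j : ℕ) (hk : i + j ≤ l) :
    star ((-1 : ℝ) ^ j • A (i + j)) = (-1 : ℝ) ^ i • A (i + j) := by
  rw [sm, star_eq_conjTranspose, h _ hk]
  rcases Nat.even_or_odd i with a | a <;> rcases Nat.even_or_odd j with b | b <;>
    simp [a.neg_one_pow, b.neg_one_pow, Nat.even_add, a, b, Nat.not_even_iff_odd.mpr]

lemma adj {l : ℕ} (X Y : Matrix (Fin l) (Fin l) (M n)) (h : ∀ i j, star (X j i) = Y i j) :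
    (Matrix.comp _ _ _ _ _ X)ᴴ = Matrix.comp _ _ _ _ _ Y := by
  ext1 i j; exact congrFun (congrFun (h i.1 j.1) i.2) j.2

lemma hG {l : ℕ} {A : ℕ → M n} (h : Sym l A) : (G l A)ᴴ = -G l A := by
  refine (adj _ _ fun i j => ?_).trans (map_neg (compAddEquiv _ _ _ _ _) _)
  simp only [of_apply, Matrix.neg_apply, add_comm j.val]
  split_ifs with c
  · rw [add_right_comm] at c ⊢
    rw [sg h _ _ c, pow_succ]; simp
  · simp

lemma hK {l : ℕ} {A : ℕ → M n} (h : Sym (l + 1) A) (hu : IsUnit (A (l + 1))) :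
    (G (l + 1) A * C (l + 1) A)ᴴ = G (l + 1) A * C (l + 1) A := by
  have e : G (l + 1) A * C (l + 1) A = Matrix.comp _ _ _ _ _ (Matrix.of fun i j : Fin (l + 1) =>
      if i.val = 0 ∧ j.val = 0 then -A 0 else if i.val ≠ 0 ∧ j.val ≠ 0 ∧ i.val + j.val ≤ l + 1 then
        (-1 : ℝ) ^ i.val • A (i.val + j.val) else 0) := by
    refine ((compRingEquiv _ _ _).map_mul _ _).symm.trans (congrArg _ ?_)
    ext1 i j
    rw [mul_apply, Fin.sum_univ_castSucc]
    have k : ∀ m : Fin l, m.val ≠ l := fun m => m.2.ne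
    have k2 := Ring.mul_inverse_cancel_left _ (A j) hu
    have k3 : (j : ℕ) ≤ l + 1 := j.2.le
    cases j using Fin.cases with
    | zero => by_cases c : i.val = 0 <;> simp_all
    | succ j =>
      rw [sum_eq_single j (fun m _ hm => by simp [k, Fin.val_inj, hm.symm]) (by simp)]
      by_cases c : i.val = 0 <;> simp_all [add_assoc]
  rw [e]
  refine adj _ _ fun i j => ?_
  simp only [of_apply, add_comm j.val, and_comm (a := j.val = 0), and_left_comm (a := j.val ≠ 0)]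
  split_ifs with c d
  · simpa using sg h 0 0 (by simp)
  · exact sg h _ _ d.2.2
  · simp

lemma cmv {l : ℕ} (X : Matrix (Fin l) (Fin l) (M n)) (v : Fin l × Fin n → ℍ[ℝ]) (i : Fin l)
    (a : Fin n) : (Matrix.comp _ _ _ _ _ X *ᵥ v) (i, a) = (∑ j, X i j *ᵥ fun b => v (j, b)) a := by
  simp [mulVec, dotProduct, Fintype.sum_prod_type, Finset.sum_apply]

lemma C1 {l : ℕ} (A : ℕ → M n) (v : Fin l × Fin n → ℍ[ℝ]) (i : ℕ) (h : i + 1 < l) (a : Fin n) :
    (C l A *ᵥ v) (⟨i, by omega⟩, a) = v (⟨i + 1, h⟩, a) := by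
  rw [C, cmv, sum_eq_single ⟨i + 1, h⟩ (fun m _ hm => by
    simp [h.ne, show m.val ≠ i + 1 from fun k => hm (Fin.ext k)]) (by simp)]
  simp [h.ne]

noncomputable def V (l : ℕ) (x : Fin n → ℍ[ℝ]) (q : ℍ[ℝ]) : Fin l × Fin n → ℍ[ℝ] :=
  fun p => x p.2 * q ^ p.1.val

lemma CV {l : ℕ} {A : ℕ → M n} (hu : IsUnit (A (l + 1))) (x : Fin n → ℍ[ℝ]) (q : ℍ[ℝ]) :
    C (l + 1) A *ᵥ V (l + 1) x q - R (V (l + 1) x q) q = fun p => if p.1 = Fin.last l then
      -(Ring.inverse (A (l + 1)) *ᵥ ∑ k ∈ range (l + 1 + 1), R (A k *ᵥ x) (q ^ k)) p.2 else 0 := by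
  funext ⟨⟨i, hi⟩, a⟩
  dsimp only
  split_ifs with c
  · rw [c, Pi.sub_apply, C, cmv, sum_range_succ, mulVec_add, mv_R, mulVec_mulVec,
      Ring.inverse_mul_cancel _ hu, mulVec_sum, sum_range]
    have : ∀ j : Fin (l + 1), (fun b => V (l + 1) x q (j, b)) = R x (q ^ j.val) := fun j => rfl
    have t2 : ∀ (k : ℕ) p, R (A k *ᵥ x) p = A k *ᵥ R x p := fun k p => (mv_R _ _ _).symm
    simp only [this, of_apply, Fin.val_last, if_true, neg_mulVec, t2, mulVec_mulVec]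
    simp [V, R, pow_succ, mul_assoc, Finset.sum_apply]
    abel
  · rw [Pi.sub_apply, C1 A _ i (by simp [Fin.ext_iff] at c; omega)]
    simp [V, R, pow_succ, mul_assoc]

lemma eig {l : ℕ} {A : ℕ → M n} (hu : IsUnit (A (l + 1))) (v : Fin (l + 1) × Fin n → ℍ[ℝ])
    (v0 : v ≠ 0) (q : ℍ[ℝ]) (h : C (l + 1) A *ᵥ v = R v q) : ∃ x ≠ 0, v = V (l + 1) x q ∧
      ∑ k ∈ range (l + 1 + 1), R (A k *ᵥ x) (q ^ k) = 0 := by
  have e : v = V (l + 1) (fun a => v (0, a)) q := by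
    funext ⟨⟨i, hi⟩, a⟩
    induction i with
    | zero => simp [V]
    | succ i ih => rw [← C1 A v i hi, h, R, ih]; simp [V, pow_succ, mul_assoc]
  refine ⟨_, fun k => v0 (by rw [e, k]; ext1; simp [V]), e, ?_⟩
  have k := CV hu (fun a => v (0, a)) q
  rw [← e, h, sub_self] at k
  have k2 : Ring.inverse (A (l + 1)) *ᵥ _ = 0 := funext fun a => by
    simpa using (congrFun k (Fin.last l, a)).symm
  rw [← one_mulVec (∑ k ∈ _, _), ← Ring.mul_inverse_cancel _ hu, ← mulVec_mulVec, k2, mulVec_zero]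

lemma GW {l : ℕ} (A : ℕ → M n) (w x : Fin n → ℍ[ℝ]) (q : ℍ[ℝ]) :
    f (G (l + 1) A) (V _ x q) (fun p => if p.1 = Fin.last l then -w p.2 else 0) =
      -(star x ⬝ᵥ A (l + 1) *ᵥ w) := by
  rw [f, dotProduct, Fintype.sum_prod_type, sum_eq_single 0 (fun i _ hi => ?_) (by simp),
    ← dotProduct_neg, dotProduct]
  all_goals
    simp only [G, cmv]
    refine sum_congr rfl (fun a _ => ?_) |>.trans (by first | rfl | exact sum_const_zero)
    rw [sum_eq_single (Fin.last l) (fun m _ hm => by simp [hm, ← Pi.zero_def]) (by simp)]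
  · simp [V, ← Pi.neg_def, mulVec_neg]
  · simp [show i.val ≠ 0 from fun k => hi (Fin.ext k)]

theorem result (l : ℕ) (hl : 1 ≤ l) (A : ℕ → M n) (hA : Sym l A) (hu : IsUnit (A l))
    (hs : StablyBdd l A) (hC : IsUnit (C l A)) (q : ℍ[ℝ])
    (hq : ∃ v ≠ 0, C l A *ᵥ v = fun i => v i * q) :
    (∀ v ∈ root (C l A) q, v ≠ 0 → ∃ r : ℝ, 0 < r ∧ star v ⬝ᵥ (G l A * C l A) *ᵥ v = r) ∨
    (∀ v ∈ root (C l A) q, v ≠ 0 → ∃ r : ℝ, r < 0 ∧ star v ⬝ᵥ (G l A * C l A) *ᵥ v = r) := by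
  obtain ⟨l, rfl⟩ := Nat.exists_eq_add_of_le' hl
  obtain ⟨ε, hε, hs⟩ := hs
  obtain ⟨v, v0, hv⟩ := hq
  obtain ⟨x, x0, -, hx⟩ := eig hu v v0 q hv
  have re0 : q.re = 0 := by_contra fun k => unb _ A x x0 q k hx (hs A hA fun _ _ _ _ => by simpa)
  have q0 : q ≠ 0 := fun k => v0 (by
    rw [← one_mulVec v, ← Ring.inverse_mul_cancel _ hC, ← mulVec_mulVec, hv, k]
    simp [← Pi.zero_def])
  have im0 : q.im ≠ 0 := fun k => q0 (by rw [← q.re_add_im, re0, k]; simp)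
  have K := hK hA hu
  have sk : (C _ A)ᴴ * G _ A = -(G (l + 1) A * C _ A) := by
    rw [← K, conjTranspose_mul, hG hA]; simp
  have rl : ∀ v, star v ⬝ᵥ (G (l + 1) A * C _ A) *ᵥ v = (f (G _ A * C _ A) v v).re := fun v =>
    Quaternion.star_eq_self.mp ((f_star _ v v).trans (by rw [K]; rfl))
  by_contra c
  simp only [rl, not_or, not_forall, root, im0, re0, if_false,
    mul_zero, zero_smul, sub_zero, normSq_eq_norm_mul_self, ← sq, Set.mem_ofPred_eq] at c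
  obtain ⟨⟨a, ha, a0, a1⟩, b, hb, b0, b1⟩ := c
  have hω := norm_ne_zero_iff.mpr q0
  obtain ⟨z, z0, hz, hn⟩ := neutral _ _ (by rw [← mul_assoc, sk, neg_mul]) _ hω _ a b a0 b0 ha hb
    (not_lt.mp fun k => a1 ⟨_, k, rfl⟩) (not_lt.mp fun k => b1 ⟨_, k, rfl⟩)
  set ω := ‖q‖
  obtain ⟨y, y0, rfl, hy⟩ := eig hu z z0 _ hz
  obtain ⟨δ, H, S, hδ, h1, h2, h3, h4, h5⟩ := perturb y y0 ω hω
    (fun δ => ∑ k ∈ range (l + 1 + 1), R (A k *ᵥ y) ((δ + mu ω) ^ k))
    (fun δ => f (G (l + 1) A) (V _ y (mu ω)) (V _ y (δ + mu ω)))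
    (by have := continuous_coe; unfold R; fun_prop)
    (by have := continuous_coe; unfold f V; fun_prop) (by simpa using hy) (by
      rw [f, ← mulVec_mulVec, hz, mv_R] at hn
      have := congrArg QuaternionAlgebra.re (dot_R (star (V _ y (mu ω)))
        (G (l + 1) A *ᵥ V _ y (mu ω)) (mu ω))
      simpa [mu, hω, f] using this.symm.trans hn) (fun δ => by
      have k := GW (l := l) A (Ring.inverse (A (l + 1)) *ᵥ ∑ k ∈ range (l + 1 + 1),
        R (A k *ᵥ y) ((δ + mu ω) ^ k)) y (mu ω)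
      rw [← CV hu, mulVec_mulVec, Ring.mul_inverse_cancel _ hu, one_mulVec, f, mulVec_sub,
        dotProduct_sub, mv_R] at k
      have k1 := f_adj (G (l + 1) A) (C _ A) (V _ y (mu ω)) (V _ y (δ + mu ω))
      rw [hz, sk, f, f, R_dot, neg_mulVec, dotProduct_neg, ← mulVec_mulVec,
        show star (mu ω) = -mu ω by ext <;> simp [mu], neg_mul, neg_inj] at k1
      rw [← k, ← k1, f, ← dot_R]; rfl) ε hε
  refine unb (l + 1) (fun k => A k + if k = 0 then H else if k = 1 then S else 0) y y0 (δ + mu ω)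
    (by simpa [mu] using hδ) ?_ (hs _ (fun k hk => ?_) fun k _ a b => ?_)
  · refine Eq.trans ?_ ((add_assoc (∑ k ∈ _, _) _ _).symm.trans h5)
    have : ∀ (u w : Fin n → ℍ[ℝ]) p, R (u + w) p = R u p + R w p := fun u w p => by
      ext1; simp [R, add_mul]
    simp only [add_mulVec, this, sum_add_distrib]
    congr 1
    rw [sum_range_succ', sum_range_succ', add_comm]
    ext1; simp [R]
  · rw [conjTranspose_add, hA k hk]
    rcases k with _ | _ | k
    · simp [h1]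
    · simp [h2, add_comm]
    · simp
  · rw [Matrix.add_apply, add_sub_cancel_left]
    split_ifs
    exacts [h3 a b, h4 a b, by simpa]

end Pool.Agent.Results.MP_554556_an.Definite
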